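import Pool.Agent.Lib.PermModel.Model

/-! External descriptions of internal notions in a permutation model. -/

namespace Pool.Agent.Lib.PermModel

open VA

variable {A : Type}

/-- Unordered pairs. -/
noncomputable def upair (x y : VA A) : VA A := VA.mk {x, y}

theorem mem_upair (x y z : VA A) : Mem z (upair x y) ↔ z = x ∨ z = y := by
  rw [upair, mem_mk' inferInstance]; rfl

theorem not_isAtom_upair (x y : VA A) : ¬ IsAtom (upair x y) := not_isAtom_mk' _

theorem smul_upair (g : Equiv.Perm A) (x y : VA A) : g • upair x y = upair (g • x) (g • y) := by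
  rw [upair, smul_mk g inferInstance, Set.image_pair]; rfl

/-- Kuratowski pairs. -/
noncomputable def opair (x y : VA A) : VA A := upair (upair x x) (upair x y)

theorem smul_opair (g : Equiv.Perm A) (x y : VA A) : g • opair x y = opair (g • x) (g • y) := by
  simp only [opair, smul_upair]

theorem upair_eq_iff {x y x' y' : VA A} :
    upair x y = upair x' y' ↔ ∀ z, z = x ∨ z = y ↔ z = x' ∨ z = y' := by
  simp only [← mem_upair]
  exact ⟨fun h z => by rw [h], ext (not_isAtom_upair _ _) (not_isAtom_upair _ _)⟩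

theorem opair_inj {x y x' y' : VA A} (h : opair x y = opair x' y') : x = x' ∧ y = y' := by
  rw [opair, opair, upair_eq_iff] at h
  have h1 := (h (upair x x)).mp (Or.inl rfl)
  have hx : x = x' := by
    rcases h1 with h1 | h1
    · simpa using ((upair_eq_iff.mp h1) x).mp (Or.inl rfl)
    · simpa [eq_comm] using ((upair_eq_iff.mp h1) x').mpr (Or.inl rfl)
  subst hx
  refine ⟨rfl, ?_⟩
  have h2 := (h (upair x y)).mp (Or.inr rfl)
  have h3 := (h (upair x y')).mpr (Or.inr rfl)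
  rcases h2 with h2 | h2
  · have hy : y = x := by simpa using ((upair_eq_iff.mp h2) y).mp (Or.inr rfl)
    subst hy
    have h4 : upair y y' = upair y y := by simpa using h3
    simpa [eq_comm] using ((upair_eq_iff.mp h4) y').mp (Or.inr rfl)
  · rcases ((upair_eq_iff.mp h2) y).mp (Or.inr rfl) with h5 | h5
    · subst h5
      simpa [eq_comm] using ((upair_eq_iff.mp h2) y').mpr (Or.inr rfl)
    · exact h5

namespace NF
variable {F : NF A}

theorem hs_upair {x y : VA A} (hx : F.HS x) (hy : F.HS y) : F.HS (upair x y) :=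
  hs_mk_finite (Set.toFinite _) (by rintro _ (rfl | rfl) <;> assumption)

theorem hs_opair {x y : VA A} (hx : F.HS x) (hy : F.HS y) : F.HS (opair x y) :=
  hs_upair (hs_upair hx hx) (hs_upair hx hy)

/-- Unordered pairs in the model. -/
noncomputable def upN (x y : F.N) : F.N := ⟨upair x.1 y.1, hs_upair x.2 y.2⟩

/-- Ordered pairs in the model. -/
noncomputable def opN (x y : F.N) : F.N := ⟨opair x.1 y.1, hs_opair x.2 y.2⟩

theorem isSetOf_upN (x y : F.N) : F.str.IsSetOf (upN x y) fun z => z = x ∨ z = y :=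
  ⟨not_isAtom_upair _ _, fun _ => (mem_upair _ _ _).trans
    (or_congr Subtype.ext_iff.symm Subtype.ext_iff.symm)⟩

theorem IsSetOf.congr {d : F.N} {P Q : F.N → Prop} (h : F.str.IsSetOf d P) (e : ∀ z, P z ↔ Q z) :
    F.str.IsSetOf d Q := ⟨h.1, fun z => (h.2 z).trans (e z)⟩

theorem isSetOf_iff_eq {d d' : F.N} {P : F.N → Prop} (h : F.str.IsSetOf d P) :
    F.str.IsSetOf d' P ↔ d' = d := ⟨fun h' => IsSetOf.unique h' h, fun e => e ▸ h⟩

theorem isPair_iff (p x y : F.N) : F.str.IsPair p x y ↔ p = opN x y := by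
  apply isSetOf_iff_eq
  refine IsSetOf.congr (isSetOf_upN (upN x x) (upN x y)) fun u => or_congr ?_ ?_
  · exact (isSetOf_iff_eq (IsSetOf.congr (isSetOf_upN x x) (by simp))).symm
  · exact (isSetOf_iff_eq (isSetOf_upN x y)).symm

theorem opN_inj {x y x' y' : F.N} (h : opN x y = opN x' y') : x = x' ∧ y = y' := by
  have := opair_inj (congrArg Subtype.val h)
  exact ⟨Subtype.ext this.1, Subtype.ext this.2⟩

theorem app_iff (f x y : F.N) : F.str.App f x y ↔ F.str.mem (opN x y) f := by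
  simp only [Str.App, isPair_iff]
  exact ⟨fun ⟨p, h, e⟩ => e ▸ h, fun h => ⟨_, h, rfl⟩⟩

theorem sm_opN {g : Equiv.Perm A} (hg : g ∈ F.G) (x y : F.N) :
    sm hg (opN x y) = opN (sm hg x) (sm hg y) := Subtype.ext (smul_opair g _ _)

theorem IsFun.dom {f x y : F.N} {P : F.N → Prop} (h : F.str.IsFun f P) (ha : F.str.App f x y) :
    P x := by
  obtain ⟨x', y', h1, h2⟩ := h.2.1 _ ((app_iff _ _ _).mp ha)
  rw [isPair_iff] at h2
  rw [(opN_inj h2).1]; exact h1

theorem IsFun.unique {f x y y' : F.N} {P : F.N → Prop} (h : F.str.IsFun f P)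
    (ha : F.str.App f x y) (ha' : F.str.App f x y') : y = y' :=
  (h.2.2 x (IsFun.dom h ha)).unique ha ha'

theorem exists_graph {ι : Type} (a b : ι → F.N) (ha : Function.Injective a)
    {H : Subgroup (Equiv.Perm A)} (hH : H ∈ F.B)
    (h : ∀ g ∈ H, ∀ i, g • (a i).1 = (a i).1 ∧ g • (b i).1 = (b i).1) :
    ∃ f, F.str.IsFun f (fun x => ∃ i, x = a i) ∧
      ∀ x y, F.str.App f x y ↔ ∃ i, x = a i ∧ y = b i := by
  obtain ⟨f, hf⟩ := exists_setOf (F := F) (fun p => ∃ i, p = opN (a i) (b i))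
    (small_of_subset (S := Set.range fun i => (opN (a i) (b i)).1) inferInstance
      (by rintro _ ⟨i, rfl⟩; exact ⟨i, rfl⟩)) hH (by
      rintro g hg _ ⟨i, rfl⟩
      refine ⟨i, ?_⟩
      rw [sm_opN]
      congr 1
      · exact Subtype.ext (h g hg i).1
      · exact Subtype.ext (h g hg i).2)
  have happ : ∀ x y, F.str.App f x y ↔ ∃ i, x = a i ∧ y = b i := by
    intro x y
    rw [app_iff, hf.2]
    exact exists_congr fun i => ⟨opN_inj, fun ⟨h1, h2⟩ => by rw [h1, h2]⟩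
  refine ⟨f, ⟨hf.1, fun p hp => ?_, ?_⟩, happ⟩
  · obtain ⟨i, rfl⟩ := (hf.2 p).mp hp
    exact ⟨a i, b i, ⟨i, rfl⟩, (isPair_iff _ _ _).mpr rfl⟩
  · rintro _ ⟨i, rfl⟩
    refine ⟨b i, (happ _ _).mpr ⟨i, rfl, rfl⟩, fun y hy => ?_⟩
    obtain ⟨j, h1, h2⟩ := (happ _ _).mp hy
    rw [h2, ha h1]

/-- The extension of an element of the model. -/
def ex (x : F.N) : Set F.N := {z | F.str.mem z x}

theorem exists_fix_finiteN {S : Set F.N} (hS : S.Finite) :
    ∃ H ∈ F.B, ∀ g ∈ H, ∀ y ∈ S, g • y.1 = y.1 := by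
  obtain ⟨H, hH, h⟩ := exists_fix_finite (F := F) (hS.image Subtype.val)
    (by rintro _ ⟨y, -, rfl⟩; exact y.2.sym)
  exact ⟨H, hH, fun g hg y hy => h g hg _ ⟨y, hy, rfl⟩⟩

theorem isFin_iff (x : F.N) : F.str.IsFin x ↔ (ex x).Finite := by
  constructor
  · rintro ⟨n, f, hn, hf, -, h2⟩
    obtain ⟨k, rfl⟩ := (isNat_iff n).mp hn
    have : ∀ a : ex x, ∃ j : Fin k, F.str.App f (F.nN j) a := by
      intro a
      obtain ⟨i, hi, -⟩ := h2 a.1 a.2
      have hd := IsFun.dom hf hi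
      obtain ⟨j, hj, rfl⟩ := (mem_nN k i).mp hd
      exact ⟨⟨j, hj⟩, hi⟩
    choose c hc using this
    exact Finite.of_injective c fun a b hab =>
      Subtype.ext (IsFun.unique hf (hc a) (hab ▸ hc b))
  · intro h
    have : Finite (ex x) := h
    obtain ⟨k, ⟨e⟩⟩ := Finite.exists_equiv_fin (ex x)
    obtain ⟨H, hH, hfix⟩ := exists_fix_finiteN h
    obtain ⟨f, hf, happ⟩ := exists_graph (fun i : Fin k => F.nN i) (fun i => (e.symm i).1)
      (fun i j hij => Fin.ext (F.nN_injective hij)) hH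
      fun g hg i => ⟨smul_num g i, hfix g hg _ (e.symm i).2⟩
    refine ⟨F.nN k, f, (isNat_iff _).mpr ⟨k, rfl⟩, ?_, ?_, ?_⟩
    · convert hf using 2 with i
      rw [mem_nN]
      exact ⟨fun ⟨j, hj, e⟩ => ⟨⟨j, hj⟩, e⟩, fun ⟨j, e⟩ => ⟨j, j.2, e⟩⟩
    · intro i a ha
      obtain ⟨j, -, rfl⟩ := (happ _ _).mp ha
      exact (e.symm j).2
    · intro a ha
      refine ⟨F.nN (e ⟨a, ha⟩), (happ _ _).mpr ⟨e ⟨a, ha⟩, rfl, by simp⟩, fun i hi => ?_⟩
      obtain ⟨j, rfl, h2⟩ := (happ _ _).mp hi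
      have : (⟨a, ha⟩ : ex x) = e.symm j := Subtype.ext h2
      rw [this]; simp

theorem exists_setOf_finite {P : F.N → Prop} (h : {z | P z}.Finite) :
    ∃ d, F.str.IsSetOf d P := by
  obtain ⟨H, hH, hfix⟩ := exists_fix_finiteN h
  have : Finite {z | P z} := h
  refine exists_setOf P inferInstance hH fun g hg x hx => ?_
  have : sm (F.le H hH hg) x = x := Subtype.ext (hfix g hg x hx)
  rwa [this]

theorem finC_iff (P : F.N → Prop) : F.str.FinC P ↔ {z | P z}.Finite := by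
  constructor
  · rintro ⟨d, hd, h⟩
    rw [isFin_iff] at h
    convert h using 1
    ext z; exact (hd.2 z).symm
  · intro h
    obtain ⟨d, hd⟩ := exists_setOf_finite h
    refine ⟨d, hd, (isFin_iff d).mpr ?_⟩
    convert h using 1
    ext z; exact hd.2 z

theorem mem_ex_sm {g : Equiv.Perm A} (hg : g ∈ F.G) (x z : F.N) :
    z ∈ ex (sm hg x) ↔ sm (F.G.inv_mem hg) z ∈ ex x := mem_smul g

theorem sm_sm_inv {g : Equiv.Perm A} (hg : g ∈ F.G) (z : F.N) :
    sm hg (sm (F.G.inv_mem hg) z) = z := Subtype.ext (smul_inv_smul g z.1)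

theorem exists_inter (U W : F.N) :
    ∃ T, F.str.IsSetOf T fun z => F.str.mem z U ∧ F.str.mem z W := by
  obtain ⟨H, hH, h⟩ := exists_fix_finiteN (F := F) (S := {U, W}) (Set.toFinite _)
  refine exists_setOf _ (small_of_subset (small_elts U.1) fun z hz => hz.1) hH ?_
  rintro g hg z ⟨h1, h2⟩
  have h3 := smul_mem_of_mem g h1
  have h4 := smul_mem_of_mem g h2
  rw [h g hg U (by simp)] at h3
  rw [h g hg W (by simp)] at h4
  exact ⟨h3, h4⟩

theorem fix_of_inv {d : F.N} {P : F.N → Prop} (hd : F.str.IsSetOf d P)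
    {H : Subgroup (Equiv.Perm A)} (hH : H ∈ F.B)
    (h : ∀ g (hg : g ∈ H) x, P x → P (sm (F.le H hH hg) x)) {g : Equiv.Perm A} (hg : g ∈ H) :
    g • d.1 = d.1 :=
  smul_eq_of_forall (H := H) hd.1 (fun g hg y hy =>
    (hd.2 _).mpr (h g hg ⟨y, d.2.of_mem hy⟩ ((hd.2 _).mp hy))) hg

/-- A criterion for being strongly filterbase infinite. -/
theorem sfi_of_seq (X : F.N) {H : Subgroup (Equiv.Perm A)} (hH : H ∈ F.B)
    (hX : ∀ g ∈ H, g • X.1 = X.1) (Y : ℕ → Set F.N) (hsub : ∀ i, Y i ⊆ ex X)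
    (hset : ∀ i, ∃ d, F.str.IsSetOf d (· ∈ Y i)) (hinf : ∀ i, (Y i).Infinite)
    (hdisj : ∀ i j, i ≠ j → (Y i ∩ Y j).Finite)
    (hinv : ∀ i g (hg : g ∈ H), {z | z ∈ Y i ∧ sm (F.le H hH hg) z ∉ Y i}.Finite) :
    F.str.SFI X := by
  let C : ℕ → F.N → Prop := fun i U =>
    ¬ F.str.atm U ∧ ex U ⊆ ex X ∧ (ex U \ Y i).Finite ∧ (Y i \ ex U).Finite
  have hC : ∀ i g (hg : g ∈ H) U, C i U → C i (sm (F.le H hH hg) U) := by
    rintro i g hg U ⟨h1, h2, h3, h4⟩
    have hG := F.le H hH hg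
    refine ⟨fun h => h1 ((isAtom_smul g).mp h), fun z hz => ?_, ?_, ?_⟩
    · have := smul_mem_of_mem g (h2 ((mem_ex_sm hG U z).mp hz))
      rw [hX g hg] at this
      change Mem z.1 X.1
      simpa [sm] using this
    · refine ((h3.union (hinv i g hg)).image (sm hG)).subset fun z hz => ?_
      refine ⟨sm (F.G.inv_mem hG) z, ?_, sm_sm_inv hG z⟩
      by_cases h5 : sm (F.G.inv_mem hG) z ∈ Y i
      · exact Or.inr ⟨h5, by rw [sm_sm_inv]; exact hz.2⟩
      · exact Or.inl ⟨(mem_ex_sm hG U z).mp hz.1, h5⟩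
    · refine ((h4.image (sm hG)).union (hinv i g⁻¹ (H.inv_mem hg))).subset fun z hz => ?_
      by_cases h5 : sm (F.G.inv_mem hG) z ∈ Y i
      · exact Or.inl ⟨_, ⟨h5, fun h6 => hz.2 ((mem_ex_sm hG U z).mpr h6)⟩, sm_sm_inv hG z⟩
      · exact Or.inr ⟨hz.1, h5⟩
  have hV : ∀ i, ∃ V, F.str.IsSetOf V (C i) := fun i =>
    exists_setOf _ (small_of_subset (small_pow X.1) fun U hU =>
      ⟨hU.1, fun w hw => hU.2.1 (show (⟨w, U.2.of_mem hw⟩ : F.N) ∈ ex U from hw)⟩) hH (hC i)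
  choose V hV using hV
  choose d hd using hset
  have hexd : ∀ i, ex (d i) = Y i := fun i => Set.ext (hd i).2
  have hdC : ∀ i, C i (d i) := fun i =>
    ⟨(hd i).1, by rw [hexd]; exact hsub i, by simp [hexd], by simp [hexd]⟩
  have hCinf : ∀ i U, C i U → (ex U).Infinite := by
    intro i U hU hfin
    exact hinf i ((hfin.union hU.2.2.2).subset fun z hz => by
      by_cases h : z ∈ ex U
      · exact Or.inl h
      · exact Or.inr ⟨hz, h⟩)
  have hCinter : ∀ i U W T, C i U → C i W →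
      F.str.IsSetOf T (fun z => F.str.mem z U ∧ F.str.mem z W) → C i T := by
    intro i U W T hU hW hT
    have e : ex T = ex U ∩ ex W := Set.ext hT.2
    refine ⟨hT.1, ?_, ?_, ?_⟩ <;> rw [e]
    · exact Set.inter_subset_left.trans hU.2.1
    · exact hU.2.2.1.subset fun z hz => ⟨hz.1.1, hz.2⟩
    · rw [Set.sdiff_inter]; exact hU.2.2.2.union hW.2.2.2
  obtain ⟨f, hf, happ⟩ := exists_graph F.nN V F.nN_injective hH
    fun g hg i => ⟨smul_num g i, fix_of_inv (hV i) hH (hC i) hg⟩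
  refine ⟨f, ?_, ?_, ?_, ?_⟩
  · convert hf using 2 with x
    exact isNat_iff x
  · intro i V' h
    obtain ⟨i, rfl, rfl⟩ := (happ _ _).mp h
    have hm := (hV i).2
    refine ⟨(hV i).1, fun U hU => ⟨((hm U).mp hU).1, fun z hz => ((hm U).mp hU).2.1 hz⟩,
      ⟨d i, (hm _).mpr (hdC i)⟩, ?_, ?_, ?_, ?_, ?_⟩
    · intro U W hU hW
      obtain ⟨T, hT⟩ := exists_inter U W
      have hTC := hCinter i U W T ((hm U).mp hU) ((hm W).mp hW) hT
      exact ⟨T, (hm T).mpr hTC, (hCinf i T hTC).nonempty, fun z hz => (hT.2 z).mp hz⟩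
    · intro U W T hU hW hT
      rw [hm] at hU hW ⊢
      have e : ex T = ex U ∪ ex W := Set.ext hT.2
      refine ⟨hT.1, ?_, ?_, ?_⟩ <;> rw [e]
      · exact Set.union_subset hU.2.1 hW.2.1
      · rw [Set.union_sdiff_distrib]; exact hU.2.2.1.union hW.2.2.1
      · exact hU.2.2.2.subset fun z hz => ⟨hz.1, fun h => hz.2 (Or.inl h)⟩
    · intro U W T hU hW hT
      exact (hm T).mpr (hCinter i U W T ((hm U).mp hU) ((hm W).mp hW) hT)
    · intro U hU
      rw [isFin_iff]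
      exact hCinf i U ((hm U).mp hU)
    · intro U W hU hW
      rw [hm] at hU hW
      rw [finC_iff]
      refine (hU.2.2.1.union hW.2.2.2).subset fun z hz => ?_
      by_cases h : z ∈ Y i
      · exact Or.inr ⟨h, hz.2⟩
      · exact Or.inl ⟨hz.1, h⟩
  · intro i j V₁ V₂ hij h1 h2
    obtain ⟨i, rfl, rfl⟩ := (happ _ _).mp h1
    obtain ⟨j, rfl, rfl⟩ := (happ _ _).mp h2
    refine ⟨d i, d j, ((hV i).2 _).mpr (hdC i), ((hV j).2 _).mpr (hdC j), ?_⟩
    rw [finC_iff]
    refine (hdisj i j (by rintro rfl; exact hij rfl)).subset fun z hz => ?_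
    exact ⟨((hd i).2 z).mp hz.1, ((hd j).2 z).mp hz.2⟩
  · intro n c hn hc h
    obtain ⟨k, rfl⟩ := (isNat_iff n).mp hn
    rw [finC_iff]
    intro hfin
    have hU : ∀ j : Fin k, ∃ U, F.str.App c (F.nN j) U := fun j =>
      (hc.2.2 _ ((mem_nN k _).mpr ⟨j, j.2, rfl⟩)).exists
    choose U hU using hU
    have hUC : ∀ j : Fin k, C j (U j) := fun j =>
      ((hV j).2 _).mp (h _ _ _ (hU j) ((happ _ _).mpr ⟨j, rfl, rfl⟩))
    apply hinf k
    refine (hfin.union (Set.finite_iUnion fun j : Fin k =>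
      (hUC j).2.2.1.union (hdisj j k j.2.ne))).subset fun z hz => ?_
    by_cases h1 : ∃ j, z ∈ ex (U j)
    · obtain ⟨j, hj⟩ := h1
      refine Or.inr (Set.mem_iUnion.mpr ⟨j, ?_⟩)
      by_cases h2 : z ∈ Y j
      · exact Or.inr ⟨h2, hz⟩
      · exact Or.inl ⟨hj, h2⟩
    · refine Or.inl ⟨hsub k hz, fun i U' hU' hz' => h1 ?_⟩
      have hd := IsFun.dom hc hU'
      obtain ⟨j, hj, rfl⟩ := (mem_nN k i).mp hd
      exact ⟨⟨j, hj⟩, IsFun.unique hc hU' (hU ⟨j, hj⟩) ▸ hz'⟩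

/-- An invariant function with infinitely many values makes a set strongly filterbase infinite. -/
theorem sfi_of_invariant (X : F.N) {H : Subgroup (Equiv.Perm A)} (hH : H ∈ F.B)
    (hX : ∀ g ∈ H, g • X.1 = X.1) {β : Type*} (φ : F.N → β)
    (hφ : ∀ g (hg : g ∈ H), ∀ x ∈ ex X, φ (sm (F.le H hH hg) x) = φ x)
    (hinf : (φ '' ex X).Infinite) : F.str.SFI X := by
  let e := hinf.natEmbedding
  let Y : ℕ → Set F.N := fun i => {x | x ∈ ex X ∧ ∃ m, φ x = e (Nat.pair i m)}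
  have hY : ∀ i g (hg : g ∈ H) x, x ∈ Y i → sm (F.le H hH hg) x ∈ Y i := by
    rintro i g hg x ⟨h1, h2⟩
    refine ⟨?_, by rwa [hφ g hg x h1]⟩
    have := smul_mem_of_mem g h1
    rwa [hX g hg] at this
  refine sfi_of_seq X hH hX Y (fun i x hx => hx.1) (fun i => ?_) (fun i => ?_) (fun i j hij => ?_)
    fun i g hg => ?_
  · exact exists_setOf _ (small_of_subset (small_elts X.1) fun z hz => hz.1) hH (hY i)
  · have : ∀ m, ∃ x ∈ ex X, φ x = e (Nat.pair i m) := fun m => (e (Nat.pair i m)).2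
    choose x hx1 hx2 using this
    refine Set.infinite_of_injective_forall_mem (f := x) (fun m m' h => ?_)
      fun m => ⟨hx1 m, m, hx2 m⟩
    have h1 : e (Nat.pair i m) = e (Nat.pair i m') := Subtype.ext (by rw [← hx2, ← hx2, h])
    exact (Nat.pair_eq_pair.mp (e.injective h1)).2
  · refine Set.finite_empty.subset ?_
    rintro x ⟨⟨-, m, h1⟩, -, m', h2⟩
    have h3 : e (Nat.pair i m) = e (Nat.pair j m') := Subtype.ext (by rw [← h1, h2])
    exact hij (Nat.pair_eq_pair.mp (e.injective h3)).1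
  · exact Set.finite_empty.subset fun z hz => hz.2 (hY i g hg z hz.1)

/-- The code of a bit. -/
noncomputable def bitN (F : NF A) (b : Bool) : F.N := F.nN (if b then 1 else 0)

theorem bitN_injective : Function.Injective (bitN F) := by
  intro b c h
  have := F.nN_injective h
  cases b <;> cases c <;> simp_all

theorem exists_code (n : ℕ) (k : ℕ → Bool) : ∃ s : F.N, F.str.IsFun s (fun i => F.str.mem i (F.nN n)) ∧
    F.str.IsSetOf s (fun p => ∃ i < n, p = opN (F.nN i) (bitN F (k i))) ∧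
    ∀ g : Equiv.Perm A, g • s.1 = s.1 := by
  obtain ⟨H, hH⟩ := F.ne
  obtain ⟨f, hf, happ⟩ := exists_graph (fun i : Fin n => F.nN i) (fun i => bitN F (k i))
    (fun i j hij => Fin.ext (F.nN_injective hij)) hH
    fun g _ i => ⟨smul_num g i, smul_num g _⟩
  have h2 : F.str.IsSetOf f (fun p => ∃ i < n, p = opN (F.nN i) (bitN F (k i))) := by
    refine ⟨hf.1, fun p => ⟨fun hp => ?_, ?_⟩⟩
    · obtain ⟨x, y, -, h⟩ := hf.2.1 p hp
      rw [isPair_iff] at h
      subst h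
      obtain ⟨i, rfl, rfl⟩ := (happ _ _).mp ((app_iff _ _ _).mpr hp)
      exact ⟨i, i.2, rfl⟩
    · rintro ⟨i, hi, rfl⟩
      exact (app_iff _ _ _).mp ((happ _ _).mpr ⟨⟨i, hi⟩, rfl, rfl⟩)
  refine ⟨f, ?_, h2, fun g => ?_⟩
  · convert hf using 2 with i
    rw [mem_nN]
    exact ⟨fun ⟨j, hj, e⟩ => ⟨⟨j, hj⟩, e⟩, fun ⟨j, e⟩ => ⟨j, j.2, e⟩⟩
  · refine smul_eq_of_forall (H := ⊤) hf.1 (fun g _ y hy => ?_) trivial
    obtain ⟨i, hi, e⟩ := (h2.2 ⟨y, f.2.of_mem hy⟩).mp hy
    have e' : y = opair (num i) (num (if k i then 1 else 0)) := congrArg Subtype.val e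
    have : g • y = y := by rw [e', smul_opair, smul_num, smul_num]
    rwa [this]

/-- External data extracted from a dyadic system. -/
theorem exists_tree_of_dfi {X : F.N} (h : F.str.DFI X) :
    ∃ H, ∃ hH : H ∈ F.B, ∃ W : ℕ → (ℕ → Bool) → F.N,
      (∀ n k, ¬ F.str.atm (W n k) ∧ ex (W n k) ⊆ ex X ∧ (ex (W n k)).Infinite) ∧
      (∀ n k g (hg : g ∈ H), (ex (sm (F.le H hH hg) (W n k)) \ ex (W n k)).Finite) ∧
      (∀ n k k', (∀ i ≤ n, k i = k' i) → (ex (W n k) \ ex (W n k')).Finite) ∧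
      (∀ n k, (ex (W (n + 1) k) \ ex (W n k)).Finite) ∧
      ∀ n k k', (∃ i ≤ n, k i ≠ k' i) → (ex (W (n + 1) k) ∩ ex (W n k')).Finite := by
  obtain ⟨zero, one, f, h0, h1, hf, hgood, h3, -⟩ := h
  have e0 : zero = F.nN 0 := IsSetOf.unique h0 F.isSetOf_zero
  subst e0
  have e1 : one = F.nN 1 := IsSetOf.unique h1 (IsSetOf.congr (F.isSetOf_succ 0) fun z => by
    rw [mem_nN]; simp)
  subst e1
  obtain ⟨H, hH, hfix⟩ := f.2.sym
  choose s hs1 hs2 hs3 using fun n k => exists_code (F := F) n k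
  have hbin : ∀ n k, F.str.Bin (F.nN 0) (F.nN 1) (F.nN (n + 1)) (s (n + 1) k) := by
    intro n k
    refine ⟨(isNat_iff _).mpr ⟨_, rfl⟩, fun h => by simpa using F.nN_injective h, hs1 _ _, ?_⟩
    intro i b hb
    obtain ⟨j, -, e⟩ := ((hs2 _ _).2 _).mp ((app_iff _ _ _).mp hb)
    rw [(opN_inj e).2, bitN]
    cases k j <;> simp
  have hV : ∀ n k, ∃ V, F.str.App f (s (n + 1) k) V := fun n k =>
    (hf.2.2 _ ⟨_, hbin n k⟩).exists
  choose V hV using hV
  have hG := fun n k => hgood _ _ (hV n k)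
  choose W hW using fun n k => (hG n k).2.2.1
  have hdiff : ∀ n k U U', F.str.mem U (V n k) → F.str.mem U' (V n k) → (ex U \ ex U').Finite :=
    fun n k U U' hU hU' => (finC_iff _).mp ((hG n k).2.2.2.2.2.2.2 U U' hU hU')
  have hseq : ∀ n k k', (∀ i < n, k i = k' i) → s n k = s n k' := by
    intro n k k' h
    refine IsSetOf.unique (hs2 n k) (IsSetOf.congr (hs2 n k') fun p => ?_)
    exact exists_congr fun i => and_congr_right fun hi => by rw [h i hi]
  have hVeq : ∀ n k k', (∀ i ≤ n, k i = k' i) → V n k = V n k' := by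
    intro n k k' h
    have := hV n k
    rw [hseq (n + 1) k k' fun i hi => h i (by omega)] at this
    exact IsFun.unique hf this (hV n k')
  have hne : ∀ n k k', (∃ i ≤ n, k i ≠ k' i) → s (n + 1) k ≠ s (n + 1) k' := by
    rintro n k k' ⟨i, hi, hne⟩ e
    have h1 := ((hs2 (n + 1) k).2 _).mpr ⟨i, by omega, rfl⟩
    rw [e] at h1
    obtain ⟨j, -, e'⟩ := ((hs2 (n + 1) k').2 _).mp h1
    have h2 := F.nN_injective (opN_inj e').1
    subst h2
    exact hne (bitN_injective (opN_inj e').2)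
  have hext : ∀ n k b, F.str.IsSetOf (s (n + 1) (Function.update k n b))
      (fun p => F.str.mem p (s n k) ∨ F.str.IsPair p (F.nN n) (bitN F b)) := by
    intro n k b
    refine IsSetOf.congr (hs2 _ _) fun p => ?_
    rw [(hs2 n k).2, isPair_iff]
    constructor
    · rintro ⟨i, hi, rfl⟩
      rcases Nat.lt_succ_iff_lt_or_eq.mp hi with h | rfl
      · exact Or.inl ⟨i, h, by rw [Function.update_of_ne h.ne]⟩
      · exact Or.inr (by simp)
    · rintro (⟨i, hi, rfl⟩ | rfl)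
      · exact ⟨i, by omega, by rw [Function.update_of_ne hi.ne]⟩
      · exact ⟨n, by omega, by simp⟩
  have key : ∀ n k k', (∃ i ≤ n, k i ≠ k' i) → (ex (W (n + 1) k) \ ex (W n k)).Finite ∧
      (ex (W (n + 1) k) ∩ ex (W n k')).Finite := by
    intro n k k' h
    obtain ⟨U, U', hU, hU', h4, h5⟩ := h3 _ _ _ _ _ _ _ _ _ _ _ (hbin n k) (hbin n k') (hne n k k' h)
      (hV n k) (hV n k') (hW n k) (hW n k') (hext (n + 1) k false) (hext (n + 1) k true)
      (hV _ _) (hV _ _)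
    rw [finC_iff] at h4 h5
    have h6 : (ex (W (n + 1) k) \ (ex U ∪ ex U')).Finite := by
      cases hk : k (n + 1)
      · have e : Function.update k (n + 1) false = k := by rw [← hk]; simp
        rw [e] at hU
        exact (hdiff _ _ _ _ (hW _ _) hU).subset fun z hz => ⟨hz.1, fun h => hz.2 (Or.inl h)⟩
      · have e : Function.update k (n + 1) true = k := by rw [← hk]; simp
        rw [e] at hU'
        exact (hdiff _ _ _ _ (hW _ _) hU').subset fun z hz => ⟨hz.1, fun h => hz.2 (Or.inr h)⟩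
    constructor
    · refine (h6.union h4).subset fun z hz => ?_
      by_cases h7 : z ∈ ex U ∪ ex U'
      · exact Or.inr ⟨h7, hz.2⟩
      · exact Or.inl ⟨hz.1, h7⟩
    · refine (h6.union h5).subset fun z hz => ?_
      by_cases h7 : z ∈ ex U ∪ ex U'
      · exact Or.inr ⟨h7, hz.2⟩
      · exact Or.inl ⟨hz.1, h7⟩
  refine ⟨H, hH, W, fun n k => ?_, fun n k g hg => ?_, fun n k k' h => ?_, fun n k => ?_,
    fun n k k' h => (key n k k' h).2⟩
  · refine ⟨((hG n k).2.1 _ (hW n k)).1, ((hG n k).2.1 _ (hW n k)).2, ?_⟩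
    have := (hG n k).2.2.2.2.2.2.1 _ (hW n k)
    rwa [isFin_iff] at this
  · refine hdiff n k _ _ ?_ (hW n k)
    have hG' := F.le H hH hg
    have h4 : F.str.App f (s (n + 1) k) (sm hG' (V n k)) := by
      have h5 := smul_mem_of_mem g ((app_iff _ _ _).mp (hV n k))
      rw [hfix g hg] at h5
      rw [app_iff]
      have e : opN (s (n + 1) k) (sm hG' (V n k)) = sm hG' (opN (s (n + 1) k) (V n k)) := by
        rw [sm_opN]; congr 1; exact Subtype.ext (hs3 _ _ g).symm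
      rw [e]; exact h5
    rw [IsFun.unique hf (hV n k) h4]
    exact smul_mem_of_mem g (hW n k)
  · exact hdiff n k _ _ (hW n k) (by rw [hVeq n k k' h]; exact hW n k')
  · exact (key n k (fun i => !k i) ⟨0, by omega, by simp⟩).1

end NF

end Pool.Agent.Lib.PermModel
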