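import Mathlib

/-! First order structures for set theory with atoms, the axioms of ZFA, and internal notions. -/

namespace Pool.Agent.Lib.PermModel

/-- Formulas of the language of ZFA: membership, equality, being an atom. -/
inductive Fm : Type
  | mem (i j : ℕ) : Fm
  | eq (i j : ℕ) : Fm
  | atm (i : ℕ) : Fm
  | neg (φ : Fm) : Fm
  | conj (φ ψ : Fm) : Fm
  | all (i : ℕ) (φ : Fm) : Fm

/-- A structure for this language on the type `M`. -/
structure Str (M : Type 1) : Type 1 where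
  mem : M → M → Prop
  atm : M → Prop

namespace Str
variable {M : Type 1} (S : Str M)

/-- Tarski satisfaction. -/
def Sat : Fm → (ℕ → M) → Prop
  | .mem i j, v => S.mem (v i) (v j)
  | .eq i j, v => v i = v j
  | .atm i, v => S.atm (v i)
  | .neg φ, v => ¬ Sat φ v
  | .conj φ ψ, v => Sat φ v ∧ Sat ψ v
  | .all i φ, v => ∀ x, Sat φ (Function.update v i x)

/-- `d` is the set of all `z` with `P z`. -/
def IsSetOf (d : M) (P : M → Prop) : Prop := ¬ S.atm d ∧ ∀ z, S.mem z d ↔ P z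

/-- `I` contains the empty set and is closed under `x ↦ x ∪ {x}`. -/
def Ind (I : M) : Prop :=
  (∃ e, S.IsSetOf e (fun _ => False) ∧ S.mem e I) ∧
    ∀ x, S.mem x I → ∃ y, S.IsSetOf y (fun z => S.mem z x ∨ z = x) ∧ S.mem y I

/-- The axioms of ZFA. -/
structure IsZFA : Prop where
  atom_empty : ∀ a z, S.atm a → ¬ S.mem z a
  ext : ∀ x y, ¬ S.atm x → ¬ S.atm y → (∀ z, S.mem z x ↔ S.mem z y) → x = y
  atoms : ∃ d, S.IsSetOf d S.atm
  pairing : ∀ x y, ∃ d, S.IsSetOf d (fun z => z = x ∨ z = y)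
  union : ∀ x, ∃ d, S.IsSetOf d (fun z => ∃ y, S.mem y x ∧ S.mem z y)
  power : ∀ x, ∃ d, S.IsSetOf d (fun z => ¬ S.atm z ∧ ∀ w, S.mem w z → S.mem w x)
  infinity : ∃ I, S.Ind I
  foundation : ∀ x y, S.mem y x → ∃ y, S.mem y x ∧ ∀ z, S.mem z y → ¬ S.mem z x
  separation : ∀ (φ : Fm) (v : ℕ → M) (a : M),
    ∃ d, S.IsSetOf d (fun z => S.mem z a ∧ S.Sat φ (Function.update v 0 z))
  replacement : ∀ (φ : Fm) (v : ℕ → M) (a : M),
    (∀ x, S.mem x a → ∃! y, S.Sat φ (Function.update (Function.update v 0 x) 1 y)) →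
    ∃ d, S.IsSetOf d
      (fun y => ∃ x, S.mem x a ∧ S.Sat φ (Function.update (Function.update v 0 x) 1 y))

/-- `n` is an element of omega. -/
def IsNat (n : M) : Prop := ∀ I, S.Ind I → S.mem n I

/-- `p` is the Kuratowski pair of `x` and `y`. -/
def IsPair (p x y : M) : Prop :=
  S.IsSetOf p (fun u => S.IsSetOf u (fun z => z = x) ∨ S.IsSetOf u (fun z => z = x ∨ z = y))

/-- The pair of `x` and `y` belongs to `f`. -/
def App (f x y : M) : Prop := ∃ p, S.mem p f ∧ S.IsPair p x y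

/-- `f` is a function whose domain is the class `P`. -/
def IsFun (f : M) (P : M → Prop) : Prop :=
  ¬ S.atm f ∧ (∀ p, S.mem p f → ∃ x y, P x ∧ S.IsPair p x y) ∧ ∀ x, P x → ∃! y, S.App f x y

/-- `x` is equipotent to an element of omega. -/
def IsFin (x : M) : Prop :=
  ∃ n f, S.IsNat n ∧ S.IsFun f (fun i => S.mem i n) ∧
    (∀ i a, S.App f i a → S.mem a x) ∧ ∀ a, S.mem a x → ∃! i, S.App f i a

/-- The class `P` is a finite set. -/
def FinC (P : M → Prop) : Prop := ∃ d, S.IsSetOf d P ∧ S.IsFin d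

/-- `V` is a filterbase in `A`, closed under unions and intersections of two members, whose
members are infinite and almost contained in each other. -/
def Good (A V : M) : Prop :=
  ¬ S.atm V ∧ (∀ U, S.mem U V → ¬ S.atm U ∧ ∀ z, S.mem z U → S.mem z A) ∧ (∃ U, S.mem U V) ∧
  (∀ U W, S.mem U V → S.mem W V →
    ∃ T, S.mem T V ∧ (∃ z, S.mem z T) ∧ ∀ z, S.mem z T → S.mem z U ∧ S.mem z W) ∧
  (∀ U W T, S.mem U V → S.mem W V → S.IsSetOf T (fun z => S.mem z U ∨ S.mem z W) → S.mem T V) ∧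
  (∀ U W T, S.mem U V → S.mem W V → S.IsSetOf T (fun z => S.mem z U ∧ S.mem z W) → S.mem T V) ∧
  (∀ U, S.mem U V → ¬ S.IsFin U) ∧
  ∀ U W, S.mem U V → S.mem W V → S.FinC (fun z => S.mem z U ∧ ¬ S.mem z W)

/-- Strongly filterbase infinite. -/
def SFI (A : M) : Prop :=
  ∃ F, S.IsFun F S.IsNat ∧ (∀ i V, S.App F i V → S.Good A V) ∧
    (∀ i j V V', i ≠ j → S.App F i V → S.App F j V' →
      ∃ U W, S.mem U V ∧ S.mem W V' ∧ S.FinC (fun z => S.mem z U ∧ S.mem z W)) ∧
    ∀ n c, S.IsNat n → S.IsFun c (fun i => S.mem i n) →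
      (∀ i U V, S.App c i U → S.App F i V → S.mem U V) →
      ¬ S.FinC (fun z => S.mem z A ∧ ∀ i U, S.App c i U → ¬ S.mem z U)

/-- `s` is a binary string of length `n`, a function from the nonzero natural number `n` to `2`;
`zero` and `one` are the von Neumann numerals. -/
def Bin (zero one n s : M) : Prop :=
  S.IsNat n ∧ n ≠ zero ∧ S.IsFun s (fun i => S.mem i n) ∧ ∀ i b, S.App s i b → b = zero ∨ b = one

/-- Dyadically filterbase infinite; the filterbases of level `n` are indexed by the binary strings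
of length `n`, and the two successors of `s` are its two one-step extensions. -/
def DFI (A : M) : Prop :=
  ∃ zero one F, S.IsSetOf zero (fun _ => False) ∧ S.IsSetOf one (fun z => z = zero) ∧
    S.IsFun F (fun s => ∃ n, S.Bin zero one n s) ∧ (∀ s V, S.App F s V → S.Good A V) ∧
    (∀ n s t V V' W G s₀ s₁ V₀ V₁, S.Bin zero one n s → S.Bin zero one n t → s ≠ t →
      S.App F s V → S.App F t V' → S.mem W V → S.mem G V' →
      S.IsSetOf s₀ (fun p => S.mem p s ∨ S.IsPair p n zero) →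
      S.IsSetOf s₁ (fun p => S.mem p s ∨ S.IsPair p n one) → S.App F s₀ V₀ → S.App F s₁ V₁ →
      ∃ U U', S.mem U V₀ ∧ S.mem U' V₁ ∧
        S.FinC (fun z => (S.mem z U ∨ S.mem z U') ∧ ¬ S.mem z W) ∧
        S.FinC (fun z => (S.mem z U ∨ S.mem z U') ∧ S.mem z G)) ∧
    ∀ n c, S.IsNat n → n ≠ zero → S.IsFun c (S.Bin zero one n) →
      (∀ s U V, S.App c s U → S.App F s V → S.mem U V) →
      S.FinC (fun z => S.mem z A ∧ ∀ s U, S.App c s U → ¬ S.mem z U)

end Str

end Pool.Agent.Lib.PermModel
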