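import Mathlib

/-! The cumulative hierarchy over a type of atoms, with the action of the permutations of atoms. -/

namespace Pool.Agent.Lib.PermModel

/-- Pre-sets over atoms. -/
inductive PA (A : Type) : Type 1
  | atom (a : A) : PA A
  | set (ι : Type) (f : ι → PA A) : PA A

namespace PA
variable {A : Type}

/-- Extensional equivalence. -/
def Eqv : PA A → PA A → Prop
  | atom a, atom b => a = b
  | atom _, set _ _ => False
  | set _ _, atom _ => False
  | set _ f, set _ g => (∀ i, ∃ j, Eqv (f i) (g j)) ∧ ∀ j, ∃ i, Eqv (f i) (g j)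

theorem Eqv.refl : ∀ x : PA A, Eqv x x
  | atom _ => rfl
  | set _ f => ⟨fun i => ⟨i, Eqv.refl (f i)⟩, fun i => ⟨i, Eqv.refl (f i)⟩⟩

theorem Eqv.euc : ∀ {x y z : PA A}, Eqv x y → Eqv z y → Eqv x z
  | atom _, atom _, atom _, h, h' => Eq.trans h (Eq.symm h')
  | atom _, atom _, set _ _, _, h' => h'.elim
  | atom _, set _ _, _, h, _ => h.elim
  | set _ _, atom _, _, h, _ => h.elim
  | set _ _, set _ _, atom _, _, h' => h'.elim
  | set _ _, set _ _, set _ _, ⟨h1, h2⟩, ⟨h3, h4⟩ =>
    ⟨fun i =>
      let ⟨j, hj⟩ := h1 i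
      let ⟨k, hk⟩ := h4 j
      ⟨k, Eqv.euc hj hk⟩,
     fun k =>
      let ⟨j, hj⟩ := h3 k
      let ⟨i, hi⟩ := h2 j
      ⟨i, Eqv.euc hi hj⟩⟩

theorem Eqv.symm {x y : PA A} (h : Eqv x y) : Eqv y x := (Eqv.refl y).euc h

theorem Eqv.trans {x y z : PA A} (h : Eqv x y) (h' : Eqv y z) : Eqv x z := h.euc h'.symm

/-- The setoid of extensional equivalence. -/
def st (A : Type) : Setoid (PA A) := ⟨Eqv, Eqv.refl, Eqv.symm, Eqv.trans⟩

/-- Membership of pre-sets. -/
def Mem (x : PA A) : PA A → Prop
  | atom _ => False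
  | set _ f => ∃ i, Eqv x (f i)

theorem Mem.congr : ∀ {x x' y y' : PA A}, Eqv x x' → Eqv y y' → Mem x y → Mem x' y'
  | _, _, atom _, _, _, _, h => h.elim
  | _, _, set _ _, atom _, _, h, _ => h.elim
  | _, _, set _ _, set _ _, hx, hy, ⟨i, hi⟩ =>
    let ⟨j, hj⟩ := hy.1 i
    ⟨j, hx.symm.trans (hi.trans hj)⟩

/-- Renaming atoms. -/
def map (g : A → A) : PA A → PA A
  | atom a => atom (g a)
  | set ι f => set ι fun i => map g (f i)

theorem map_congr (g : A → A) : ∀ {x y : PA A}, Eqv x y → Eqv (map g x) (map g y)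
  | atom _, atom _, h => congrArg g h
  | atom _, set _ _, h => h.elim
  | set _ _, atom _, h => h.elim
  | set _ _, set _ _, ⟨h1, h2⟩ =>
    ⟨fun i => let ⟨j, hj⟩ := h1 i; ⟨j, map_congr g hj⟩,
     fun j => let ⟨i, hi⟩ := h2 j; ⟨i, map_congr g hi⟩⟩

theorem map_id : ∀ x : PA A, map id x = x
  | atom _ => rfl
  | set ι f => by simp only [map]; congr; funext i; exact map_id (f i)

theorem map_map (g h : A → A) : ∀ x : PA A, map g (map h x) = map (g ∘ h) x
  | atom _ => rfl
  | set ι f => by simp only [map]; congr; funext i; exact map_map g h (f i)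

end PA

/-- The universe of sets over the atoms `A`. -/
def VA (A : Type) : Type 1 := Quotient (PA.st A)

namespace VA
variable {A : Type}

/-- Atoms. -/
def atom (a : A) : VA A := Quotient.mk (PA.st A) (PA.atom a)

/-- Membership. -/
def Mem (x y : VA A) : Prop :=
  Quotient.liftOn₂ x y PA.Mem fun _ _ _ _ h h' =>
    propext ⟨PA.Mem.congr h h', PA.Mem.congr h.symm h'.symm⟩

/-- Being an atom. -/
def IsAtom (x : VA A) : Prop := ∃ a, x = atom a

/-- The range of a family indexed by a small type. -/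
noncomputable def rng {ι : Type} (f : ι → VA A) : VA A :=
  Quotient.mk (PA.st A) (PA.set ι fun i => (f i).out)

theorem atom_injective : Function.Injective (atom : A → VA A) := fun _ _ h =>
  Quotient.exact h

theorem not_mem_atom (x : VA A) (a : A) : ¬ Mem x (atom a) := by
  induction x using Quotient.inductionOn
  exact id

theorem not_isAtom_mk (ι : Type) (f : ι → PA A) :
    ¬ IsAtom (Quotient.mk (PA.st A) (PA.set ι f) : VA A) := by
  rintro ⟨a, h⟩
  exact (Quotient.exact h : PA.Eqv _ _)

theorem mem_mk (x : VA A) (ι : Type) (f : ι → PA A) :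
    Mem x (Quotient.mk (PA.st A) (PA.set ι f)) ↔ ∃ i, x = Quotient.mk (PA.st A) (f i) := by
  induction x using Quotient.inductionOn
  exact exists_congr fun i => ⟨fun h => Quotient.sound h, fun h => Quotient.exact h⟩

theorem not_isAtom_rng {ι : Type} (f : ι → VA A) : ¬ IsAtom (rng f) := not_isAtom_mk _ _

theorem mem_rng {ι : Type} (f : ι → VA A) (x : VA A) : Mem x (rng f) ↔ ∃ i, f i = x := by
  rw [rng, mem_mk]
  refine exists_congr fun i => ?_
  rw [Quotient.out_eq (s := PA.st A) (f i), eq_comm]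

theorem cases (x : VA A) : (∃ a, x = atom a) ∨ ∃ (ι : Type) (f : ι → VA A), x = rng f := by
  induction x using Quotient.inductionOn with
  | h x =>
    cases x with
    | atom a => exact Or.inl ⟨a, rfl⟩
    | set ι f =>
      refine Or.inr ⟨ι, fun i => Quotient.mk (PA.st A) (f i), Quotient.sound ?_⟩
      exact ⟨fun i => ⟨i, (Quotient.mk_out (s := PA.st A) (f i)).symm⟩,
        fun i => ⟨i, (Quotient.mk_out (s := PA.st A) (f i)).symm⟩⟩

theorem ext {x y : VA A} (hx : ¬ IsAtom x) (hy : ¬ IsAtom y) (h : ∀ z, Mem z x ↔ Mem z y) :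
    x = y := by
  induction x using Quotient.inductionOn with
  | h x =>
  induction y using Quotient.inductionOn with
  | h y =>
  cases x with
  | atom a => exact (hx ⟨a, rfl⟩).elim
  | set ι f =>
    cases y with
    | atom a => exact (hy ⟨a, rfl⟩).elim
    | set κ g =>
      refine Quotient.sound ⟨fun i => ?_, fun j => ?_⟩
      · obtain ⟨j, hj⟩ := (mem_mk _ _ _).mp ((h _).mp ((mem_mk _ _ _).mpr ⟨i, rfl⟩))
        exact ⟨j, Quotient.exact hj⟩
      · obtain ⟨i, hi⟩ := (mem_mk _ _ _).mp ((h _).mpr ((mem_mk _ _ _).mpr ⟨j, rfl⟩))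
        exact ⟨i, Quotient.exact hi.symm⟩

@[elab_as_elim]
theorem induction {P : VA A → Prop} (h : ∀ x, (∀ y, Mem y x → P y) → P x) (x : VA A) : P x := by
  induction x using Quotient.inductionOn with
  | h x =>
  induction x with
  | atom a => exact h _ fun y hy => (not_mem_atom y a hy).elim
  | set ι f ih =>
    refine h _ fun y hy => ?_
    obtain ⟨i, rfl⟩ := (mem_mk _ _ _).mp hy
    exact ih i

theorem mem_wf : WellFounded (Mem : VA A → VA A → Prop) :=
  ⟨fun x => VA.induction (P := Acc Mem) (fun x h => Acc.intro x h) x⟩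

theorem not_mem_self (x : VA A) : ¬ Mem x x := mem_wf.irrefl.irrefl x

theorem not_mem_of_isAtom {x y : VA A} (h : IsAtom y) : ¬ Mem x y := by
  obtain ⟨a, rfl⟩ := h
  exact not_mem_atom x a

/-- The elements of a set. -/
def elts (x : VA A) : Set (VA A) := {y | Mem y x}

theorem small_elts (x : VA A) : Small.{0} (elts x) := by
  rcases cases x with ⟨a, rfl⟩ | ⟨ι, f, rfl⟩
  · have : elts (atom a) = ∅ := Set.eq_empty_of_forall_notMem fun y hy => not_mem_atom y a hy
    rw [this]; infer_instance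
  · have : elts (rng f) = Set.range f := by ext y; exact mem_rng f y
    rw [this]; infer_instance

open Classical in
/-- The set with a given small collection of elements. -/
noncomputable def mk (S : Set (VA A)) : VA A :=
  if _h : Small.{0} S then rng fun i : Shrink.{0} S => ((equivShrink S).symm i : VA A)
  else rng (fun i : Empty => i.elim)

theorem not_isAtom_mk' (S : Set (VA A)) : ¬ IsAtom (mk S) := by
  unfold mk; split_ifs <;> exact not_isAtom_rng _

theorem mem_mk' {S : Set (VA A)} (h : Small.{0} S) (x : VA A) : Mem x (mk S) ↔ x ∈ S := by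
  unfold mk
  rw [dif_pos h, mem_rng]
  constructor
  · rintro ⟨i, rfl⟩; exact Subtype.property _
  · intro hx; exact ⟨equivShrink S ⟨x, hx⟩, by simp⟩

theorem mk_elts {x : VA A} (hx : ¬ IsAtom x) : mk (elts x) = x :=
  ext (not_isAtom_mk' _) hx fun z => mem_mk' (small_elts x) z

theorem small_pow (x : VA A) : Small.{0} {y : VA A | ¬ IsAtom y ∧ elts y ⊆ elts x} := by
  have := small_elts x
  refine small_of_injective (β := Set (elts x)) (f := fun y => {z | (z : VA A) ∈ elts y.1}) ?_
  intro y y' h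
  refine Subtype.ext (ext y.2.1 y'.2.1 fun z => ⟨fun hz => ?_, fun hz => ?_⟩)
  · exact (Set.ext_iff.mp h ⟨z, y.2.2 hz⟩).mp hz
  · exact (Set.ext_iff.mp h ⟨z, y'.2.2 hz⟩).mpr hz

/-- The action of a permutation of the atoms. -/
def act (g : Equiv.Perm A) (x : VA A) : VA A :=
  Quotient.map' (s₁ := PA.st A) (s₂ := PA.st A) (PA.map g) (fun _ _ h => PA.map_congr g h) x

theorem act_one (x : VA A) : act 1 x = x := by
  induction x using Quotient.inductionOn with
  | h x => exact congrArg _ (PA.map_id x)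

theorem act_mul (g h : Equiv.Perm A) (x : VA A) : act (g * h) x = act g (act h x) := by
  induction x using Quotient.inductionOn with
  | h x => exact congrArg _ (PA.map_map g h x).symm

instance : MulAction (Equiv.Perm A) (VA A) where
  smul := act
  one_smul := act_one
  mul_smul := act_mul

theorem smul_atom (g : Equiv.Perm A) (a : A) : g • atom a = atom (g a) := rfl

theorem smul_mem_of_mem (g : Equiv.Perm A) {x y : VA A} (h : Mem x y) : Mem (g • x) (g • y) := by
  induction y using Quotient.inductionOn with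
  | h y =>
  cases y with
  | atom a => exact (not_mem_atom x a h).elim
  | set ι f =>
    obtain ⟨i, rfl⟩ := (mem_mk _ _ _).mp h
    exact (mem_mk _ _ _).mpr ⟨i, rfl⟩

@[simp] theorem smul_mem_smul (g : Equiv.Perm A) {x y : VA A} : Mem (g • x) (g • y) ↔ Mem x y :=
  ⟨fun h => by simpa using smul_mem_of_mem g⁻¹ h, smul_mem_of_mem g⟩

theorem mem_smul (g : Equiv.Perm A) {x y : VA A} : Mem x (g • y) ↔ Mem (g⁻¹ • x) y := by
  rw [← smul_mem_smul g (x := g⁻¹ • x), smul_inv_smul]

@[simp] theorem isAtom_smul (g : Equiv.Perm A) {x : VA A} : IsAtom (g • x) ↔ IsAtom x := by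
  have key : ∀ (g : Equiv.Perm A) (x : VA A), IsAtom x → IsAtom (g • x) := by
    rintro g _ ⟨a, rfl⟩; exact ⟨g a, rfl⟩
  exact ⟨fun h => by simpa using key g⁻¹ _ h, key g x⟩

theorem smul_mk (g : Equiv.Perm A) {S : Set (VA A)} (h : Small.{0} S) :
    g • mk S = mk ((fun x => g • x) '' S) := by
  refine ext (by simp [not_isAtom_mk']) (not_isAtom_mk' _) fun z => ?_
  rw [mem_smul, mem_mk' h, mem_mk' inferInstance]
  constructor
  · intro hz; exact ⟨_, hz, smul_inv_smul g z⟩
  · rintro ⟨y, hy, rfl⟩; simpa using hy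

/-- A subgroup that maps the elements of a set into the set fixes it. -/
theorem smul_eq_of_forall {H : Subgroup (Equiv.Perm A)} {x : VA A} (hx : ¬ IsAtom x)
    (h : ∀ g ∈ H, ∀ y, Mem y x → Mem (g • y) x) {g : Equiv.Perm A} (hg : g ∈ H) : g • x = x := by
  refine ext (by simpa using hx) hx fun z => ⟨fun hz => ?_, fun hz => ?_⟩
  · have := h g hg _ ((mem_smul g).mp hz)
    rwa [smul_inv_smul] at this
  · exact (mem_smul g).mpr (h g⁻¹ (H.inv_mem hg) z hz)

end VA

end Pool.Agent.Lib.PermModel
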