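import Pool.Agent.Lib.PermModel.Defs
import Pool.Agent.Lib.PermModel.Univ

/-! Permutation models: the hereditarily symmetric sets form a model of ZFA. -/

namespace Pool.Agent.Lib.PermModel

open VA

/-- A group of permutations of the atoms with a base of a normal filter of subgroups. -/
structure NF (A : Type) where
  G : Subgroup (Equiv.Perm A)
  B : Set (Subgroup (Equiv.Perm A))
  le : ∀ H ∈ B, H ≤ G
  ne : B.Nonempty
  inter : ∀ H ∈ B, ∀ K ∈ B, ∃ L ∈ B, L ≤ H ∧ L ≤ K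
  conj : ∀ g ∈ G, ∀ H ∈ B, ∃ L ∈ B, ∀ l ∈ L, g⁻¹ * l * g ∈ H
  atm : ∀ a, ∃ H ∈ B, ∀ h ∈ H, h a = a

namespace NF
variable {A : Type} (F : NF A)

/-- Symmetric objects. -/
def Sym (x : VA A) : Prop := ∃ H ∈ F.B, ∀ h ∈ H, h • x = x

/-- Hereditarily symmetric objects. -/
inductive HS : VA A → Prop
  | mk (x : VA A) (h1 : F.Sym x) (h2 : ∀ y, Mem y x → HS y) : HS x

variable {F}

theorem HS.sym {x : VA A} (h : F.HS x) : F.Sym x := by cases h; assumption

theorem HS.of_mem {x y : VA A} (h : F.HS x) (hy : Mem y x) : F.HS y := by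
  cases h with
  | mk _ _ h2 => exact h2 y hy

theorem Sym.smul {x : VA A} (h : F.Sym x) {g : Equiv.Perm A} (hg : g ∈ F.G) : F.Sym (g • x) := by
  obtain ⟨H, hH, hx⟩ := h
  obtain ⟨L, hL, hl⟩ := F.conj g hg H hH
  refine ⟨L, hL, fun l hl' => ?_⟩
  have := hx _ (hl l hl')
  rw [mul_smul, mul_smul, inv_smul_eq_iff] at this
  exact this

theorem HS.smul {x : VA A} (h : F.HS x) {g : Equiv.Perm A} (hg : g ∈ F.G) : F.HS (g • x) := by
  induction h with
  | mk x h1 _ ih =>
    refine HS.mk _ (h1.smul hg) fun y hy => ?_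
    have := ih _ ((mem_smul g).mp hy)
    rwa [smul_inv_smul] at this

theorem hs_atom (a : A) : F.HS (atom a) := by
  obtain ⟨H, hH, h⟩ := F.atm a
  exact HS.mk _ ⟨H, hH, fun g hg => by rw [smul_atom, h g hg]⟩ fun y hy => (not_mem_atom y a hy).elim

theorem hs_mk {S : Set (VA A)} (hS : Small.{0} S) (h1 : ∀ y ∈ S, F.HS y)
    {H : Subgroup (Equiv.Perm A)} (hH : H ∈ F.B) (h2 : ∀ g ∈ H, ∀ y ∈ S, g • y ∈ S) :
    F.HS (VA.mk S) := by
  refine HS.mk _ ⟨H, hH, fun g hg => smul_eq_of_forall (not_isAtom_mk' S) ?_ hg⟩ fun y hy =>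
    h1 y ((mem_mk' hS y).mp hy)
  intro g hg y hy
  exact (mem_mk' hS _).mpr (h2 g hg y ((mem_mk' hS y).mp hy))

theorem exists_fix_finite {S : Set (VA A)} (hS : S.Finite) (h : ∀ y ∈ S, F.Sym y) :
    ∃ H ∈ F.B, ∀ g ∈ H, ∀ y ∈ S, g • y = y := by
  induction S, hS using Set.Finite.induction_on with
  | empty => obtain ⟨H, hH⟩ := F.ne; exact ⟨H, hH, by simp⟩
  | insert _ _ ih =>
    obtain ⟨H, hH, h1⟩ := ih fun y hy => h y (Set.mem_insert_of_mem _ hy)
    obtain ⟨K, hK, h2⟩ := h _ (Set.mem_insert _ _)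
    obtain ⟨L, hL, h3, h4⟩ := F.inter H hH K hK
    refine ⟨L, hL, fun g hg y hy => ?_⟩
    rcases hy with rfl | hy
    · exact h2 g (h4 hg)
    · exact h1 g (h3 hg) y hy

theorem hs_mk_finite {S : Set (VA A)} (hS : S.Finite) (h1 : ∀ y ∈ S, F.HS y) : F.HS (VA.mk S) := by
  obtain ⟨H, hH, h⟩ := exists_fix_finite hS fun y hy => (h1 y hy).sym
  have : Finite S := hS
  exact hs_mk inferInstance h1 hH fun g hg y hy => by rwa [h g hg y hy]

variable (F)

/-- The carrier of the permutation model. -/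
abbrev N : Type 1 := {x : VA A // F.HS x}

/-- The permutation model. -/
def str : Str F.N := ⟨fun x y => Mem x.1 y.1, fun x => IsAtom x.1⟩

variable {F}

@[simp] theorem str_mem (x y : F.N) : F.str.mem x y ↔ Mem x.1 y.1 := Iff.rfl
@[simp] theorem str_atm (x : F.N) : F.str.atm x ↔ IsAtom x.1 := Iff.rfl

/-- The action on the model. -/
def sm {g : Equiv.Perm A} (hg : g ∈ F.G) (x : F.N) : F.N := ⟨g • x.1, x.2.smul hg⟩

theorem sm_injective {g : Equiv.Perm A} (hg : g ∈ F.G) : Function.Injective (sm (F := F) hg) :=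
  fun _ _ h => Subtype.ext (MulAction.injective g (congrArg Subtype.val h))

theorem sm_surjective {g : Equiv.Perm A} (hg : g ∈ F.G) : Function.Surjective (sm (F := F) hg) :=
  fun y => ⟨sm (F.G.inv_mem hg) y, Subtype.ext (smul_inv_smul g y.1)⟩

theorem sat_sm {g : Equiv.Perm A} (hg : g ∈ F.G) (φ : Fm) (v : ℕ → F.N) :
    F.str.Sat φ (fun i => sm hg (v i)) ↔ F.str.Sat φ v := by
  induction φ generalizing v with
  | mem i j => exact smul_mem_smul g
  | eq i j => exact (sm_injective hg).eq_iff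
  | atm i => exact isAtom_smul g
  | neg φ ih => exact not_congr (ih v)
  | conj φ ψ ih1 ih2 => exact and_congr (ih1 v) (ih2 v)
  | all i φ ih =>
    have e : ∀ x, Function.update (fun i => sm hg (v i)) i (sm hg x) =
        fun j => sm hg (Function.update v i x j) := by
      intro x; funext j
      by_cases h : j = i
      · subst h; simp
      · simp [h]
    simp only [Str.Sat]
    rw [(sm_surjective hg).forall]
    exact forall_congr' fun x => by rw [e, ih]

/-- The variables that occur in a formula. -/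
def _root_.Pool.Agent.Lib.PermModel.Fm.vars : Fm → Finset ℕ
  | .mem i j => {i, j}
  | .eq i j => {i, j}
  | .atm i => {i}
  | .neg φ => φ.vars
  | .conj φ ψ => φ.vars ∪ ψ.vars
  | .all _ φ => φ.vars

theorem sat_congr {M : Type 1} (S : Str M) (φ : Fm) {v w : ℕ → M} (h : ∀ i ∈ φ.vars, v i = w i) :
    S.Sat φ v ↔ S.Sat φ w := by
  induction φ generalizing v w with
  | mem i j => simp only [Str.Sat]; rw [h i (by simp [Fm.vars]), h j (by simp [Fm.vars])]
  | eq i j => simp only [Str.Sat]; rw [h i (by simp [Fm.vars]), h j (by simp [Fm.vars])]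
  | atm i => simp only [Str.Sat]; rw [h i (by simp [Fm.vars])]
  | neg φ ih => exact not_congr (ih h)
  | conj φ ψ ih1 ih2 =>
    exact and_congr (ih1 fun i hi => h i (by simp [Fm.vars, hi]))
      (ih2 fun i hi => h i (by simp [Fm.vars, hi]))
  | all i φ ih =>
    refine forall_congr' fun x => ih fun j hj => ?_
    by_cases hji : j = i
    · subst hji; simp
    · simp [hji, h j hj]

theorem exists_fix (φ : Fm) (v : ℕ → F.N) (a : F.N) :
    ∃ H ∈ F.B, (∀ g ∈ H, g • a.1 = a.1) ∧ ∀ g ∈ H, ∀ i ∈ φ.vars, g • (v i).1 = (v i).1 := by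
  obtain ⟨H, hH, h⟩ := exists_fix_finite (F := F)
    (S := insert a.1 ((fun i => (v i).1) '' (φ.vars : Set ℕ)))
    ((φ.vars.finite_toSet.image _).insert _) (by
      rintro _ (rfl | ⟨i, -, rfl⟩)
      · exact a.2.sym
      · exact (v i).2.sym)
  exact ⟨H, hH, fun g hg => h g hg _ (Set.mem_insert _ _),
    fun g hg i hi => h g hg _ (Set.mem_insert_of_mem _ ⟨i, hi, rfl⟩)⟩

theorem isSetOf_iff {d : F.N} {P : F.N → Prop} :
    F.str.IsSetOf d P ↔ ¬ IsAtom d.1 ∧ ∀ z, Mem z d.1 ↔ ∃ h : F.HS z, P ⟨z, h⟩ := by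
  refine and_congr_right fun _ => ⟨fun h z => ⟨fun hz => ⟨d.2.of_mem hz, (h ⟨z, _⟩).mp hz⟩,
    fun ⟨hz, hP⟩ => (h ⟨z, hz⟩).mpr hP⟩, fun h z => ?_⟩
  rw [str_mem, h]
  exact ⟨fun ⟨_, hP⟩ => hP, fun hP => ⟨z.2, hP⟩⟩

theorem exists_setOf (P : F.N → Prop) (hs : Small.{0} {x : F.N | P x})
    {H : Subgroup (Equiv.Perm A)} (hH : H ∈ F.B)
    (h : ∀ g (hg : g ∈ H) x, P x → P (sm (F.le H hH hg) x)) : ∃ d, F.str.IsSetOf d P := by
  have hs' : Small.{0} (Subtype.val '' {x : F.N | P x} : Set (VA A)) :=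
    small_image (fun x : F.N => x.1) {x : F.N | P x}
  refine ⟨⟨VA.mk (Subtype.val '' {x : F.N | P x}), hs_mk hs' ?_ hH ?_⟩, not_isAtom_mk' _, fun z => ?_⟩
  · rintro _ ⟨x, -, rfl⟩; exact x.2
  · rintro g hg _ ⟨x, hx, rfl⟩; exact ⟨_, h g hg x hx, rfl⟩
  · rw [str_mem, mem_mk' hs']
    exact ⟨fun ⟨x, hx, e⟩ => Subtype.ext e ▸ hx, fun hz => ⟨z, hz, rfl⟩⟩

theorem small_of_subset {P : F.N → Prop} {S : Set (VA A)} (hS : Small.{0} S)
    (h : ∀ x, P x → x.1 ∈ S) : Small.{0} {x : F.N | P x} :=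
  small_of_injective (β := S) (f := fun x => ⟨x.1.1, h x.1 x.2⟩) fun _ _ e =>
    Subtype.ext (Subtype.ext (Subtype.mk.inj e))

theorem IsSetOf.unique {d d' : F.N} {P : F.N → Prop} (h : F.str.IsSetOf d P)
    (h' : F.str.IsSetOf d' P) : d = d' := by
  rw [isSetOf_iff] at h h'
  exact Subtype.ext (ext h.1 h'.1 fun z => by rw [h.2, h'.2])

end NF

/-- The von Neumann numerals. -/
noncomputable def num {A : Type} : ℕ → VA A
  | 0 => mk ∅
  | n + 1 => mk (insert (num n) (elts (num n)))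

section num
variable {A : Type}

theorem not_isAtom_num (n : ℕ) : ¬ IsAtom (num n : VA A) := by
  cases n <;> exact not_isAtom_mk' _

theorem mem_num_succ (n : ℕ) (z : VA A) : Mem z (num (n + 1)) ↔ Mem z (num n) ∨ z = num n := by
  have := small_elts (num n : VA A)
  rw [num, mem_mk' inferInstance, Set.mem_insert_iff, or_comm]; rfl

theorem mem_num (n : ℕ) (z : VA A) : Mem z (num n) ↔ ∃ k < n, z = num k := by
  induction n with
  | zero => rw [num, mem_mk' inferInstance]; simp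
  | succ n ih =>
    rw [mem_num_succ, ih]
    constructor
    · rintro (⟨k, hk, rfl⟩ | rfl)
      · exact ⟨k, by omega, rfl⟩
      · exact ⟨n, by omega, rfl⟩
    · rintro ⟨k, hk, rfl⟩
      rcases Nat.lt_succ_iff_lt_or_eq.mp hk with h | rfl
      · exact Or.inl ⟨k, h, rfl⟩
      · exact Or.inr rfl

theorem num_injective : Function.Injective (num : ℕ → VA A) := by
  intro m n h
  rcases lt_trichotomy m n with h1 | h1 | h1
  · exact (not_mem_self (num m : VA A) (by
      conv => rhs; rw [h]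
      exact (mem_num n _).mpr ⟨m, h1, rfl⟩)).elim
  · exact h1
  · exact (not_mem_self (num n : VA A) (by
      conv => rhs; rw [← h]
      exact (mem_num m _).mpr ⟨n, h1, rfl⟩)).elim

theorem smul_num (g : Equiv.Perm A) (n : ℕ) : g • (num n : VA A) = num n := by
  induction n using Nat.strong_induction_on generalizing g with
  | _ n ih =>
  refine smul_eq_of_forall (H := ⊤) (not_isAtom_num n) (fun g _ y hy => ?_) trivial
  obtain ⟨k, hk, rfl⟩ := (mem_num n y).mp hy
  rwa [ih k hk]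

theorem NF.hs_num (F : NF A) (n : ℕ) : F.HS (num n) := by
  induction n using Nat.strong_induction_on with
  | _ n ih =>
  obtain ⟨H, hH⟩ := F.ne
  refine NF.HS.mk _ ⟨H, hH, fun g _ => smul_num g n⟩ fun y hy => ?_
  obtain ⟨k, hk, rfl⟩ := (mem_num n y).mp hy
  exact ih k hk

/-- The numerals in the model. -/
noncomputable def NF.nN (F : NF A) (n : ℕ) : F.N := ⟨num n, F.hs_num n⟩

theorem NF.nN_injective (F : NF A) : Function.Injective F.nN := fun _ _ h =>
  num_injective (congrArg Subtype.val h)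

theorem NF.mem_nN {F : NF A} (n : ℕ) (z : F.N) : F.str.mem z (F.nN n) ↔ ∃ k < n, z = F.nN k := by
  refine (mem_num n z.1).trans (exists_congr fun k => and_congr_right fun _ => ?_)
  exact ⟨fun h => Subtype.ext h, fun h => congrArg Subtype.val h⟩

theorem NF.isSetOf_zero (F : NF A) : F.str.IsSetOf (F.nN 0) fun _ => False :=
  ⟨not_isAtom_num 0, fun z => by rw [NF.mem_nN]; simp⟩

theorem NF.isSetOf_succ (F : NF A) (n : ℕ) :
    F.str.IsSetOf (F.nN (n + 1)) fun z => F.str.mem z (F.nN n) ∨ z = F.nN n :=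
  ⟨not_isAtom_num _, fun z => (mem_num_succ n z.1).trans (or_congr Iff.rfl
    ⟨fun h => Subtype.ext h, fun h => congrArg Subtype.val h⟩)⟩

theorem NF.exists_omega (F : NF A) :
    ∃ I, F.str.Ind I ∧ F.str.IsSetOf I fun z => ∃ n, z = F.nN n := by
  obtain ⟨H, hH⟩ := F.ne
  obtain ⟨I, hI⟩ := NF.exists_setOf (F := F) (fun z => ∃ n, z = F.nN n)
    (NF.small_of_subset (S := Set.range num) inferInstance (by rintro _ ⟨n, rfl⟩; exact ⟨n, rfl⟩))
    hH (by rintro g hg _ ⟨n, rfl⟩; exact ⟨n, Subtype.ext (smul_num g n)⟩)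
  refine ⟨I, ⟨⟨_, F.isSetOf_zero, (hI.2 _).mpr ⟨0, rfl⟩⟩, fun x hx => ?_⟩, hI⟩
  obtain ⟨n, rfl⟩ := (hI.2 _).mp hx
  exact ⟨_, F.isSetOf_succ n, (hI.2 _).mpr ⟨n + 1, rfl⟩⟩

theorem NF.isNat_iff {F : NF A} (x : F.N) : F.str.IsNat x ↔ ∃ n, x = F.nN n := by
  constructor
  · intro h
    obtain ⟨I, h1, h2⟩ := F.exists_omega
    exact (h2.2 x).mp (h I h1)
  · rintro ⟨n, rfl⟩ I hI
    induction n with
    | zero =>
      obtain ⟨e, he, h⟩ := hI.1
      rwa [NF.IsSetOf.unique F.isSetOf_zero he]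
    | succ n ih =>
      obtain ⟨y, hy, h⟩ := hI.2 _ ih
      rwa [NF.IsSetOf.unique (F.isSetOf_succ n) hy]

end num

theorem NF.isZFA {A : Type} (F : NF A) : F.str.IsZFA where
  atom_empty := fun _ _ h => not_mem_of_isAtom h
  ext := fun x y hx hy h => Subtype.ext (ext hx hy fun z =>
    ⟨fun hz => (h ⟨z, x.2.of_mem hz⟩).mp hz, fun hz => (h ⟨z, y.2.of_mem hz⟩).mpr hz⟩)
  atoms := by
    obtain ⟨H, hH⟩ := F.ne
    exact NF.exists_setOf _ (NF.small_of_subset (S := Set.range atom) inferInstance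
      (by rintro x ⟨a, h⟩; exact ⟨a, h.symm⟩)) hH fun g _ x hx => (isAtom_smul g).mpr hx
  pairing := by
    intro x y
    obtain ⟨H, hH, h⟩ := NF.exists_fix_finite (F := F) (S := {x.1, y.1}) (Set.toFinite _)
      (by rintro _ (rfl | rfl); exacts [x.2.sym, y.2.sym])
    refine NF.exists_setOf _ (NF.small_of_subset (S := {x.1, y.1}) inferInstance
      (by rintro _ (rfl | rfl) <;> simp)) hH ?_
    rintro g hg _ (rfl | rfl)
    · exact Or.inl (Subtype.ext (h g hg _ (by simp)))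
    · exact Or.inr (Subtype.ext (h g hg _ (by simp)))
  union := by
    intro x
    obtain ⟨H, hH, h⟩ := x.2.sym
    have := small_elts x.1
    have : ∀ y : VA A, Small.{0} (elts y) := small_elts
    refine NF.exists_setOf _ (NF.small_of_subset (S := ⋃ y : elts x.1, elts y.1) inferInstance
      (by rintro z ⟨y, hy, hz⟩; exact Set.mem_iUnion.mpr ⟨⟨y.1, hy⟩, hz⟩)) hH ?_
    rintro g hg z ⟨y, hy, hz⟩
    refine ⟨NF.sm (F.le H hH hg) y, ?_, smul_mem_of_mem g hz⟩
    have := smul_mem_of_mem g hy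
    rwa [h g hg] at this
  power := by
    intro x
    obtain ⟨H, hH, h⟩ := x.2.sym
    refine NF.exists_setOf _ (NF.small_of_subset (small_pow x.1)
      (fun z hz => ⟨hz.1, fun w hw => hz.2 ⟨w, z.2.of_mem hw⟩ hw⟩)) hH ?_
    rintro g hg z ⟨h1, h2⟩
    refine ⟨fun h3 => h1 ((isAtom_smul g).mp h3), fun w hw => ?_⟩
    have h4 : Mem (g⁻¹ • w.1) z.1 := (mem_smul g).mp hw
    have h5 := smul_mem_of_mem g (h2 ⟨_, z.2.of_mem h4⟩ h4)
    rwa [h g hg, smul_inv_smul] at h5
  infinity := by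
    obtain ⟨I, h, -⟩ := F.exists_omega
    exact ⟨I, h⟩
  foundation := by
    intro x y hy
    obtain ⟨m, hm, h⟩ := mem_wf.has_min (elts x.1) ⟨y.1, hy⟩
    exact ⟨⟨m, x.2.of_mem hm⟩, hm, fun z hz hzx => h z.1 hzx hz⟩
  separation := by
    intro φ v a
    obtain ⟨H, hH, h1, h2⟩ := NF.exists_fix φ v a
    refine NF.exists_setOf _ (NF.small_of_subset (small_elts a.1) fun z hz => hz.1) hH ?_
    rintro g hg z ⟨hz, hφ⟩
    refine ⟨?_, ?_⟩
    · have := smul_mem_of_mem g hz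
      rwa [h1 g hg] at this
    · rw [← NF.sat_sm (F.le H hH hg)] at hφ
      refine (NF.sat_congr _ φ fun i hi => ?_).mp hφ
      by_cases h0 : i = 0
      · subst h0; simp
      · simp only [Function.update_of_ne h0]
        exact Subtype.ext (h2 g hg i hi)
  replacement := by
    intro φ v a hu
    obtain ⟨H, hH, h1, h2⟩ := NF.exists_fix φ v a
    have := small_elts a.1
    choose f hf using fun x : elts a.1 => hu ⟨x.1, a.2.of_mem x.2⟩ x.2
    refine NF.exists_setOf _ (NF.small_of_subset (S := Set.range fun x => (f x).1) inferInstance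
      ?_) hH ?_
    · rintro y ⟨x, hx, hφ⟩
      exact ⟨⟨x.1, hx⟩, congrArg Subtype.val ((hf ⟨x.1, hx⟩).2 y hφ).symm⟩
    · rintro g hg y ⟨x, hx, hφ⟩
      refine ⟨NF.sm (F.le H hH hg) x, ?_, ?_⟩
      · have := smul_mem_of_mem g hx
        rwa [h1 g hg] at this
      · rw [← NF.sat_sm (F.le H hH hg)] at hφ
        refine (NF.sat_congr _ φ fun i hi => ?_).mp hφ
        by_cases h1' : i = 1
        · subst h1'; simp
        · by_cases h0 : i = 0
          · subst h0; simp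
          · simp only [Function.update_of_ne h0, Function.update_of_ne h1']
            exact Subtype.ext (h2 g hg i hi)

end Pool.Agent.Lib.PermModel
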